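import Pool.Agent.Helper63.PG.Basic

/-!
# Project PG: module SPM
-/

set_option autoImplicit false

namespace Pool.Agent.Helper7.PG

open Pool.Agent.Helper63.PG

open Classical in
/-- MODULE SPM -/
theorem hSPM {V : Type*} {G : SimpleGraph V} {R T U : Set V} (h : Lay G R T U) (hN : N1 G T U) :
    SPlus G T U := by
  have hTU : ∀ t ∈ T, t ∉ U := by
    intro t ht hu
    obtain ⟨r, hr, hadj⟩ := h.tR t ht
    exact h.anti t hu r hr hadj
  have key : ∀ n : ℕ, ∀ (c : ℕ → V) (L : ℕ),
      ((Finset.range L).filter (fun i => c i ∈ U)).card ≤ n → 4 ≤ L → Hol G c L →
      (∀ i < L, c i ∈ U ∨ c i ∈ T) → (∃ i < L, c i ∈ T) → c 0 ∈ U → c (L - 1) ∈ U →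
      ¬ Cm G T (c 0) (c (L - 1)) →
      ¬ (∀ i, i + 1 < L → c i ∈ U → c (i + 1) ∈ U → Cm G T (c i) (c (i + 1))) := by
    intro n
    induction n with
    | zero =>
      intro c L hcard h4 hc hUT hT h0 h1 hCm hall
      have : (0 : ℕ) ∈ (Finset.range L).filter (fun i => c i ∈ U) := by
        rw [Finset.mem_filter, Finset.mem_range]
        exact ⟨by omega, h0⟩
      have h2 := Finset.card_pos.2 ⟨0, this⟩
      omega
    | succ n ih =>
      intro c L hcard h4 hc hUT hT h0 h1 hCm hall
      by_cases hex : ∃ i, i + 1 < L ∧ c i ∈ U ∧ c (i + 1) ∈ U
      · obtain ⟨i, hi, hiU, hiU'⟩ := hex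
        obtain ⟨w, hw, hwi, hwi'⟩ := hall i hi hiU hiU'
        -- the first and the last index seen by w
        have hP : ∃ p, G.Adj w (c p) := ⟨i, hwi⟩
        set p := Nat.find hP with hp
        have hp1 : G.Adj w (c p) := Nat.find_spec hP
        have hp2 : p ≤ i := Nat.find_min' hP hwi
        have hp3 : ∀ j < p, ¬ G.Adj w (c j) := fun j hj => Nat.find_min hP hj
        set q := Nat.findGreatest (fun j => G.Adj w (c j)) (L - 1) with hq
        have hq1 : G.Adj w (c q) :=
          Nat.findGreatest_spec (P := fun j => G.Adj w (c j)) (by omega : i ≤ L - 1) hwi
        have hq2 : i + 1 ≤ q :=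
          Nat.le_findGreatest (P := fun j => G.Adj w (c j)) (by omega : i + 1 ≤ L - 1) hwi'
        have hq3 : q ≤ L - 1 := Nat.findGreatest_le (L - 1)
        have hq4 : ∀ j, q < j → j < L → ¬ G.Adj w (c j) := fun j hj hj' =>
          Nat.findGreatest_is_greatest (P := fun j => G.Adj w (c j)) hj (by omega)
        have hne : ¬ (p = 0 ∧ q = L - 1) := by
          rintro ⟨e1, e2⟩
          rw [e1] at hp1
          rw [e2] at hq1
          exact hCm ⟨w, hw, hp1, hq1⟩
        rcases Nat.lt_or_ge (p + 1) q with hpq | hpq
        · -- splice
          obtain ⟨δ, hδ⟩ : ∃ δ, q = p + δ + 2 := ⟨q - p - 2, by omega⟩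
          have hL : p + δ + 2 < L := by omega
          have hsp := hc.splice hL hp1 (by rw [← hδ]; exact hq1) hp3
            (fun j hj hj' => hq4 j (by omega) hj') (by
              rintro ⟨e1, e2⟩
              exact hne ⟨e1, by omega⟩)
          have hL4 : 4 ≤ L - δ := by
            rcases Nat.eq_zero_or_pos p with e | e
            · have : q ≠ L - 1 := fun e' => hne ⟨e, e'⟩
              omega
            · omega
          -- the removed index
          obtain ⟨r, hr1, hr2, hr3⟩ : ∃ r, p < r ∧ r < q ∧ c r ∈ U := by
            rcases Nat.lt_or_ge p i with e | e
            · exact ⟨i, e, by omega, hiU⟩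
            · exact ⟨i + 1, by omega, by omega, hiU'⟩
          have hrmem : r ∈ (Finset.range L).filter (fun i => c i ∈ U) := by
            rw [Finset.mem_filter, Finset.mem_range]
            exact ⟨by omega, hr3⟩
          have hcard' : ((Finset.range (L - δ)).filter
              (fun i => splice c p w δ i ∈ U)).card ≤ n := by
            have h5 : ((Finset.range (L - δ)).filter (fun i => splice c p w δ i ∈ U)).card ≤
                (((Finset.range L).filter (fun i => c i ∈ U)).erase r).card := by
              refine Finset.card_le_card_of_injOn (fun m => if m ≤ p then m else m + δ) ?_ ?_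
              · intro m hm
                rw [Finset.mem_coe, Finset.mem_filter, Finset.mem_range] at hm
                obtain ⟨hm1, hm2⟩ := hm
                rw [Finset.mem_coe, Finset.mem_erase, Finset.mem_filter, Finset.mem_range]
                simp only
                rcases Nat.lt_or_ge p m with e | e
                · rw [if_neg (by omega)]
                  have e' : m ≠ p + 1 := by
                    rintro rfl
                    rw [splice_mid] at hm2
                    exact hTU w hw hm2
                  rw [splice_gt (by omega)] at hm2
                  exact ⟨by omega, by omega, hm2⟩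
                · rw [if_pos e]
                  rw [splice_le e] at hm2
                  exact ⟨by omega, by omega, hm2⟩
              · intro m hm m' hm' hmm
                simp only at hmm
                split_ifs at hmm <;> omega
            rw [Finset.card_erase_of_mem hrmem] at h5
            omega
          refine ih (splice c p w δ) (L - δ) hcard' hL4 hsp ?_ ?_ ?_ ?_ ?_ ?_
          · intro m hm
            rcases Nat.lt_or_ge p m with e | e
            · by_cases e' : m = p + 1
              · rw [e', splice_mid]
                exact Or.inr hw
              · rw [splice_gt (by omega)]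
                exact hUT _ (by omega)
            · rw [splice_le e]
              exact hUT _ (by omega)
          · refine ⟨p + 1, by omega, ?_⟩
            rw [splice_mid]
            exact hw
          · rw [splice_le (Nat.zero_le p)]
            exact h0
          · rw [splice_gt (by omega), show L - δ - 1 + δ = L - 1 by omega]
            exact h1
          · rw [splice_le (Nat.zero_le p), splice_gt (by omega),
              show L - δ - 1 + δ = L - 1 by omega]
            exact hCm
          · intro m hm hm1 hm2
            rcases Nat.lt_or_ge m p with e | e
            · rw [splice_le (by omega : m ≤ p)] at hm1 ⊢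
              rw [splice_le (by omega : m + 1 ≤ p)] at hm2 ⊢
              exact hall m (by omega) hm1 hm2
            · by_cases e1 : m = p
              · rw [e1, splice_mid] at hm2
                exact absurd hm2 (hTU w hw)
              by_cases e2 : m = p + 1
              · rw [e2, splice_mid] at hm1
                exact absurd hm1 (hTU w hw)
              rw [splice_gt (by omega : p + 1 < m)] at hm1 ⊢
              rw [splice_gt (by omega : p + 1 < m + 1), show m + 1 + δ = m + δ + 1 by omega]
                at hm2 ⊢
              exact hall (m + δ) (by omega) hm1 hm2
        · -- N1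
          refine hN c L h4 hc hUT hT w hw p (by omega) ?_
          intro j hj
          constructor
          · intro hadj
            by_contra hcon
            push Not at hcon
            rcases Nat.lt_or_ge j p with e | e
            · exact hp3 j e hadj
            · exact hq4 j (by omega) hj hadj
          · rintro (rfl | rfl)
            · exact hp1
            · rw [show p + 1 = q by omega]
              exact hq1
      · -- alternating
        push Not at hex
        have hpar : ∀ i, i < L → (c i ∈ U ↔ Even i) := by
          intro i
          induction i with
          | zero => intro _; exact ⟨fun _ => Even.zero, fun _ => h0⟩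
          | succ i ihi =>
            intro hi
            have h2 := ihi (by omega)
            rw [Nat.even_add_one, ← h2]
            constructor
            · intro h3 h4'
              exact hex i hi h4' h3
            · intro h3
              rcases hUT (i + 1) hi with h5 | h5
              · exact h5
              · exfalso
                have h6 := (hUT i (by omega)).resolve_left h3
                exact h.stab _ h6 _ h5 ((hc i (i + 1) (by omega) hi).2 (Or.inl rfl))
        have h2 := (hpar (L - 1) (by omega)).1 h1
        have h3 := h.noh.even hc h4
        rw [Nat.even_iff] at h2 h3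
        omega
  intro c L h4 hc hUT hT h0 h1 hCm
  exact key _ c L le_rfl h4 hc hUT hT h0 h1 hCm

end Pool.Agent.Helper7.PG
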